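import Mathlib

set_option linter.unusedSectionVars false

/-!
# MP_593b6a_co — non-Hamiltonian graphs with Hamiltonian `k`-multiset graphs

For every `k ≥ 3` we exhibit a non-Hamiltonian graph `G` on `n = k + 3 ≥ k + 1` vertices whose
`k`-multiset graph `M_k(G)` is Hamiltonian: `G` consists of a complete graph on `k + 1` vertices
and a triangle which share exactly one vertex.
-/

namespace Pool.Agent.Results.MP_593b6a_co.NonHamiltonianBaseAllK

open Multiset

/-- Two multisets are related when the second arises from the first by removing one copy of a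
vertex `a` and adding one copy of a neighbour `b` of `a`. -/
def Swap {V : Type*} (G : SimpleGraph V) (A B : Multiset V) : Prop :=
  ∃ a b : V, G.Adj a b ∧ ∃ r : Multiset V, A = a ::ₘ r ∧ B = b ::ₘ r

theorem Swap.symm {V : Type*} {G : SimpleGraph V} {A B : Multiset V} (h : Swap G A B) :
    Swap G B A := by
  obtain ⟨a, b, hab, r, hA, hB⟩ := h
  exact ⟨b, a, hab.symm, r, hB, hA⟩

theorem Swap.ne {V : Type*} {G : SimpleGraph V} {A B : Multiset V} (h : Swap G A B) :
    A ≠ B := by
  obtain ⟨a, b, hab, r, hA, hB⟩ := h
  rintro rfl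
  rw [hA] at hB
  have := (Multiset.cons_inj_left r).1 hB
  exact hab.ne this

theorem Swap.add {V : Type*} {G : SimpleGraph V} {A B : Multiset V} (S : Multiset V)
    (h : Swap G A B) : Swap G (S + A) (S + B) := by
  obtain ⟨a, b, hab, r, hA, hB⟩ := h
  refine ⟨a, b, hab, S + r, ?_, ?_⟩
  · rw [hA, Multiset.add_cons]
  · rw [hB, Multiset.add_cons]

/-- The `k`-multiset graph `M_k(G)`: its vertices are the multisets of `k` vertices of `G`
(`Sym V k` is the type of multisets of cardinality `k`), and `A`, `B` are adjacent when `B` arises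
from `A` by replacing one copy of a vertex `a` by one copy of a neighbour `b` of `a`. -/
def multisetGraph {V : Type*} (G : SimpleGraph V) (k : ℕ) : SimpleGraph (Sym V k) where
  Adj A B := Swap G (A : Multiset V) (B : Multiset V)
  symm := ⟨fun _ _ h => h.symm⟩
  loopless := ⟨fun _ h => h.ne rfl⟩

/-! ### Hamiltonian paths as lists -/

/-- `HP R S s t`: there is a Hamiltonian path from `s` to `t` through the set `S`. -/
def HP {α : Type*} (R : α → α → Prop) (S : Set α) (s t : α) : Prop :=
  ∃ l : List α, l.Nodup ∧ (∀ x, x ∈ l ↔ x ∈ S) ∧ l.IsChain R ∧ l.head? = some s ∧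
    l.getLast? = some t

section HPlemmas

variable {α : Type*} {R : α → α → Prop} {S S' : Set α} {s t s' t' : α}

theorem HP.single (a : α) : HP R {a} a a :=
  ⟨[a], by simp, by simp, by simp, by simp, by simp⟩

theorem HP.congr (h : HP R S s t) (hS : S = S') : HP R S' s t := hS ▸ h

theorem HP.concat (h : HP R S s t) (h' : HP R S' s' t') (hd : Disjoint S S')
    (hr : R t s') : HP R (S ∪ S') s t' := by
  obtain ⟨l, h1, h2, h3, h4, h5⟩ := h
  obtain ⟨l', h1', h2', h3', h4', h5'⟩ := h'
  refine ⟨l ++ l', ?_, ?_, ?_, ?_, ?_⟩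
  · rw [List.nodup_append']
    refine ⟨h1, h1', ?_⟩
    intro x hx hx'
    exact Set.disjoint_left.1 hd ((h2 x).1 hx) ((h2' x).1 hx')
  · intro x
    rw [List.mem_append, h2, h2']
    rfl
  · refine List.IsChain.append h3 h3' ?_
    intro x hx y hy
    rw [h5] at hx
    rw [h4'] at hy
    simp only [Option.mem_def, Option.some.injEq] at hx hy
    subst hx; subst hy
    exact hr
  · rw [List.head?_append, h4]; rfl
  · rw [List.getLast?_append, h5']; rfl

theorem HP.reverse (hR : ∀ a b, R a b → R b a) (h : HP R S s t) : HP R S t s := by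
  obtain ⟨l, h1, h2, h3, h4, h5⟩ := h
  refine ⟨l.reverse, ?_, ?_, ?_, ?_, ?_⟩
  · simpa using h1
  · intro x; simpa using h2 x
  · rw [List.isChain_reverse]
    exact h3.imp (fun a b hab => hR a b hab)
  · simpa using h5
  · simpa using h4

theorem HP.map {β : Type*} {R' : β → β → Prop} (f : α → β) (hf : Function.Injective f)
    (hR : ∀ a b, R a b → R' (f a) (f b)) (h : HP R S s t) : HP R' (f '' S) (f s) (f t) := by
  obtain ⟨l, h1, h2, h3, h4, h5⟩ := h
  refine ⟨l.map f, ?_, ?_, ?_, ?_, ?_⟩
  · exact h1.map hf
  · intro x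
    simp only [List.mem_map, Set.mem_image, h2]
  · rw [List.isChain_map]
    exact h3.imp (fun a b hab => hR a b hab)
  · simp [h4]
  · simp [h5]

end HPlemmas

/-! ### Cliques -/

section Clique

variable {V : Type*} [DecidableEq V] {G : SimpleGraph V}

/-- The multisets of cardinality `m` with all members in `T`. -/
def MS (T : Finset V) (m : ℕ) : Set (Multiset V) := {A | card A = m ∧ ∀ a ∈ A, a ∈ T}

theorem mem_MS {T : Finset V} {m : ℕ} {A : Multiset V} :
    A ∈ MS T m ↔ card A = m ∧ ∀ a ∈ A, a ∈ T := Iff.rfl

theorem swap_replicate {x e : V} (h : G.Adj x e) (i d : ℕ) :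
    Swap G (replicate (i + 1) x + replicate d e) (replicate i x + replicate (d + 1) e) := by
  refine ⟨x, e, h, replicate i x + replicate d e, ?_, ?_⟩
  · rw [replicate_succ, cons_add]
  · rw [replicate_succ, add_cons]

theorem eq_replicate_of_count {A : Multiset V} {m : ℕ} {x : V} (h : card A = m)
    (h' : m ≤ count x A) : A = replicate m x := by
  symm
  refine eq_of_le_of_card_le (le_count_iff_replicate_le.1 h') ?_
  rw [h, card_replicate]

theorem typeA (n : ℕ) : ∀ T : Finset V, T.card = n →
    (∀ a ∈ T, ∀ b ∈ T, a ≠ b → G.Adj a b) → ∀ x ∈ T, ∀ y ∈ T, (x ≠ y ∨ T = {x}) → ∀ m : ℕ,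
    HP (Swap G) (MS T m) (replicate m x) (replicate m y) := by
  induction n with
  | zero =>
    intro T hT _ x hx
    rw [Finset.card_eq_zero] at hT
    subst hT
    simp at hx
  | succ n ih =>
    intro T hT hcl x hx y hy hxy m
    by_cases hTx : T = {x}
    · subst hTx
      have hyx : y = x := by simpa using hy
      subst hyx
      have : MS {y} m = {replicate m y} := by
        ext A
        rw [mem_MS, Set.mem_singleton_iff, eq_replicate]
        simp
      rw [this]
      exact HP.single _
    · have hxy' : x ≠ y := by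
        rcases hxy with h | h
        · exact h
        · exact absurd h hTx
      have hyT : y ∈ T.erase x := Finset.mem_erase.2 ⟨hxy'.symm, hy⟩
      obtain ⟨y', hy'T, hy'⟩ : ∃ y' ∈ T.erase x, (y ≠ y' ∨ T.erase x = {y}) ∧
          (y' ≠ y ∨ T.erase x = {y'}) := by
        by_cases h : ∃ w ∈ T.erase x, w ≠ y
        · obtain ⟨w, hw, hwy⟩ := h
          exact ⟨w, hw, Or.inl hwy.symm, Or.inl hwy⟩
        · push Not at h
          have : T.erase x = {y} := by
            apply Finset.eq_singleton_iff_unique_mem.2 ⟨hyT, h⟩
          exact ⟨y, hyT, Or.inr this, Or.inr this⟩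
      set e : ℕ → V := fun i => if Even i then y else y' with he
      have heT : ∀ i, e i ∈ T.erase x := by
        intro i
        simp only [he]
        split_ifs
        · exact hyT
        · exact hy'T
      have hee : ∀ i, (e (i + 1) ≠ e i ∨ T.erase x = {e (i + 1)}) := by
        intro i
        simp only [he]
        by_cases hi : Even i
        · have hi' : ¬ Even (i + 1) := by
            rw [Nat.not_even_iff_odd]; exact hi.add_one
          rw [if_pos hi, if_neg hi']
          exact hy'.2
        · have hi' : Even (i + 1) := by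
            rw [Nat.not_even_iff_odd] at hi; exact hi.add_one
          rw [if_neg hi, if_pos hi']
          exact hy'.1
      have hcard : (T.erase x).card = n := by
        rw [Finset.card_erase_of_mem hx, hT]; rfl
      have hcl' : ∀ a ∈ T.erase x, ∀ b ∈ T.erase x, a ≠ b → G.Adj a b := fun a ha b hb =>
        hcl a (Finset.mem_of_mem_erase ha) b (Finset.mem_of_mem_erase hb)
      have key : ∀ d i : ℕ, i + d = m →
          HP (Swap G) {A | A ∈ MS T m ∧ i ≤ count x A} (replicate m x)
            (replicate i x + replicate d (e i)) := by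
        intro d
        induction d with
        | zero =>
          intro i hi
          have hi' : i = m := by omega
          subst hi'
          rw [replicate_zero, add_zero]
          have : {A | A ∈ MS T i ∧ i ≤ count x A} = {replicate i x} := by
            ext A
            rw [Set.mem_ofPred_eq, Set.mem_singleton_iff]
            constructor
            · rintro ⟨h1, h2⟩
              exact eq_replicate_of_count h1.1 h2
            · rintro rfl
              refine ⟨⟨card_replicate _ _, ?_⟩, ?_⟩
              · intro a ha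
                rw [eq_of_mem_replicate ha]; exact hx
              · rw [count_replicate_self]
          rw [this]
          exact HP.single _
        | succ d ihd =>
          intro i hi
          have h1 := ihd (i + 1) (by omega)
          have h2 := HP.map (R' := Swap G) (fun X => replicate i x + X)
            (fun a b hab => by simpa using hab) (fun a b hab => hab.add _)
            (ih (T.erase x) hcard hcl' (e (i + 1)) (heT _) (e i) (heT _) (hee i) (d + 1))
          have hadj : G.Adj x (e (i + 1)) :=
            hcl x hx _ (Finset.mem_of_mem_erase (heT _)) (Finset.ne_of_mem_erase (heT _)).symm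
          refine (h1.concat h2 ?_ (swap_replicate hadj i d)).congr ?_
          · rw [Set.disjoint_left]
            rintro A ⟨_, hA⟩ ⟨X, hX, rfl⟩
            simp only [count_add, count_replicate_self] at hA
            have : x ∈ X := by
              rw [← count_pos]; omega
            exact absurd (hX.2 x this) (by simp)
          · ext A
            simp only [Set.mem_union, Set.mem_ofPred_eq, Set.mem_image, mem_MS]
            constructor
            · rintro (⟨h1, h2⟩ | ⟨X, ⟨hX1, hX2⟩, rfl⟩)
              · exact ⟨h1, by omega⟩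
              · refine ⟨⟨?_, ?_⟩, ?_⟩
                · rw [card_add, card_replicate, hX1]; exact hi
                · intro a ha
                  rcases mem_add.1 ha with h | h
                  · rw [eq_of_mem_replicate h]; exact hx
                  · exact Finset.mem_of_mem_erase (hX2 a h)
                · rw [count_add, count_replicate_self]; omega
            · rintro ⟨⟨h1, h2⟩, h3⟩
              by_cases h4 : i + 1 ≤ count x A
              · exact Or.inl ⟨⟨h1, h2⟩, h4⟩
              · right
                obtain ⟨X, rfl⟩ := Multiset.le_iff_exists_add.1 (le_count_iff_replicate_le.1 h3)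
                rw [count_add, count_replicate_self] at h4
                refine ⟨X, ⟨?_, ?_⟩, rfl⟩
                · rw [card_add, card_replicate] at h1; omega
                · intro a ha
                  rw [Finset.mem_erase]
                  refine ⟨?_, h2 a (mem_add.2 (Or.inr ha))⟩
                  rintro rfl
                  have := count_pos.2 ha
                  omega
      have h0 := key m 0 (by omega)
      have he0 : e 0 = y := by simp [he]
      rw [he0, replicate_zero, zero_add] at h0
      exact h0.congr (by ext A; simp)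

theorem typeA' {T : Finset V} (hcl : ∀ a ∈ T, ∀ b ∈ T, a ≠ b → G.Adj a b) {x y : V}
    (hx : x ∈ T) (hy : y ∈ T) (hxy : x ≠ y) (m : ℕ) :
    HP (Swap G) (MS T m) (replicate m x) (replicate m y) :=
  typeA _ T rfl hcl x hx y hy (Or.inl hxy) m

theorem typeD {T : Finset V} (hcl : ∀ a ∈ T, ∀ b ∈ T, a ≠ b → G.Adj a b) {c u v : V}
    (hc : c ∈ T) (hu : u ∈ T) (hv : v ∈ T) (hcu : c ≠ u) (hcv : c ≠ v) (huv : u ≠ v) (m : ℕ) :
    HP (Swap G) (MS T (m + 1)) (replicate (m + 1) c) (u ::ₘ replicate m c) := by
  have hcl' : ∀ a ∈ T.erase u, ∀ b ∈ T.erase u, a ≠ b → G.Adj a b := fun a ha b hb =>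
    hcl a (Finset.mem_of_mem_erase ha) b (Finset.mem_of_mem_erase hb)
  have h1 := typeA' hcl' (Finset.mem_erase.2 ⟨hcu, hc⟩) (Finset.mem_erase.2 ⟨huv.symm, hv⟩) hcv
    (m + 1)
  have h2 := HP.map (R' := Swap G) (fun X => ({u} : Multiset V) + X)
    (fun a b hab => by simpa using hab) (fun a b hab => hab.add _)
    (typeA' hcl hv hc hcv.symm m)
  simp only [singleton_add] at h2
  refine (h1.concat h2 ?_ ?_).congr ?_
  · rw [Set.disjoint_left]
    rintro A ⟨_, hA⟩ ⟨X, hX, rfl⟩
    exact absurd (hA u (mem_cons_self _ _)) (by simp)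
  · exact ⟨v, u, hcl v hv u hu huv.symm, replicate m v, replicate_succ _ _, rfl⟩
  · ext A
    simp only [Set.mem_union, Set.mem_image, mem_MS]
    constructor
    · rintro (⟨h1, h2⟩ | ⟨X, ⟨hX1, hX2⟩, rfl⟩)
      · exact ⟨h1, fun a ha => Finset.mem_of_mem_erase (h2 a ha)⟩
      · refine ⟨by rw [card_cons, hX1], ?_⟩
        intro a ha
        rcases mem_cons.1 ha with rfl | h
        · exact hu
        · exact hX2 a h
    · rintro ⟨h1, h2⟩
      by_cases hA : u ∈ A
      · right
        obtain ⟨X, rfl⟩ := exists_cons_of_mem hA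
        refine ⟨X, ⟨by rw [card_cons] at h1; omega, fun a ha => h2 a (mem_cons_of_mem ha)⟩, rfl⟩
      · left
        refine ⟨h1, fun a ha => Finset.mem_erase.2 ⟨?_, h2 a ha⟩⟩
        rintro rfl
        exact hA ha

end Clique

/-! ### Lines -/

section Lines

variable {V : Type*} [DecidableEq V] {G : SimpleGraph V}

/-- The situation of the construction: a clique `T`, two adjacent vertices `z`, `w` outside `T`
adjacent to `c ∈ T`, and every vertex is in `T ∪ {z, w}`. -/
structure Setup (G : SimpleGraph V) (T : Finset V) (z w c u v : V) : Prop where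
  hcl : ∀ a ∈ T, ∀ b ∈ T, a ≠ b → G.Adj a b
  hz : z ∉ T
  hw : w ∉ T
  hzw : G.Adj z w
  hcz : G.Adj c z
  hcw : G.Adj c w
  hc : c ∈ T
  hu : u ∈ T
  hv : v ∈ T
  hcu : c ≠ u
  hcv : c ≠ v
  huv : u ≠ v
  hall : ∀ a, a ∈ T ∨ a = z ∨ a = w

variable {T : Finset V} {z w c u v : V}

/-- `i` copies of `z` and `j` copies of `w`. -/
def zw (z w : V) (i j : ℕ) : Multiset V := replicate i z + replicate j w

theorem zw_succ_left (z w : V) (i j : ℕ) : zw z w (i + 1) j = z ::ₘ zw z w i j := by
  unfold zw
  rw [replicate_succ, cons_add]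

theorem zw_succ_right (z w : V) (i j : ℕ) : zw z w i (j + 1) = w ::ₘ zw z w i j := by
  unfold zw
  rw [replicate_succ, add_cons]

theorem card_zw (z w : V) (i j : ℕ) : card (zw z w i j) = i + j := by
  unfold zw
  rw [card_add, card_replicate, card_replicate]

theorem count_z_zw {z w : V} (h : z ≠ w) (i j : ℕ) : count z (zw z w i j) = i := by
  unfold zw
  rw [count_add, count_replicate_self, count_replicate, if_neg h.symm, add_zero]

theorem count_w_zw {z w : V} (h : z ≠ w) (i j : ℕ) : count w (zw z w i j) = j := by
  unfold zw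
  rw [count_add, count_replicate_self, count_replicate, if_neg h, zero_add]

/-- the two interface multisets of cardinality `m + 1` -/
def iface (c u : V) (b : Bool) (m : ℕ) : Multiset V :=
  if b then u ::ₘ replicate m c else replicate (m + 1) c

theorem iface_succ (c u : V) (b : Bool) (m : ℕ) : iface c u b (m + 1) = c ::ₘ iface c u b m := by
  unfold iface
  cases b
  · simp only [Bool.false_eq_true, if_false]
    rw [replicate_succ]
  · simp only [if_true]
    rw [replicate_succ, cons_swap]

/-- the element at which a line ends -/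
def fin (c u : V) : ℕ → Bool → V
  | 0, b => if b then u else c
  | m + 1, b => fin c u m (!b)

theorem iface_zero (c u : V) (b : Bool) : iface c u b 0 = replicate 1 (fin c u 0 b) := by
  unfold iface fin
  cases b <;> simp

theorem fin_ne_v (hcv : c ≠ v) (huv : u ≠ v) : ∀ m b, fin c u m b ≠ v := by
  intro m
  induction m with
  | zero =>
    intro b
    unfold fin
    cases b
    · simpa using hcv
    · simpa using huv
  | succ m ih =>
    intro b
    exact ih _

theorem fin_two (c u : V) (n : ℕ) : ∀ b, fin c u (2 * n) b = if b then u else c := by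
  induction n with
  | zero => intro b; rfl
  | succ n ih =>
    intro b
    have : 2 * (n + 1) = 2 * n + 1 + 1 := by ring
    rw [this]
    show fin c u (2 * n) (!!b) = _
    rw [ih, Bool.not_not]

theorem Setup.zne (h : Setup G T z w c u v) : z ≠ w := h.hzw.ne

theorem MS_count_z {X : Multiset V} {m : ℕ} (hz : z ∉ T) (hX : X ∈ MS T m) : count z X = 0 := by
  rw [count_eq_zero]
  exact fun hh => hz (hX.2 z hh)

theorem Setup.fib (h : Setup G T z w c u v) (i j m : ℕ) :
    (fun X => zw z w i j + X) '' MS T m =
      {A | card A = i + j + m ∧ count z A = i ∧ count w A = j} := by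
  ext A
  simp only [Set.mem_image, Set.mem_ofPred_eq]
  constructor
  · rintro ⟨X, hX, rfl⟩
    rw [card_add, card_zw, hX.1, count_add, count_add, count_z_zw h.zne, count_w_zw h.zne,
      MS_count_z h.hz hX, MS_count_z h.hw hX]
    simp
  · rintro ⟨h1, h2, h3⟩
    have hle : zw z w i j ≤ A := by
      rw [le_iff_count]
      intro a
      unfold zw
      rw [count_add, count_replicate, count_replicate]
      by_cases haz : a = z
      · subst haz
        rw [if_pos rfl, if_neg (Ne.symm h.zne)]
        omega
      · by_cases haw : a = w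
        · subst haw
          rw [if_pos rfl, if_neg (Ne.symm haz)]
          omega
        · rw [if_neg (Ne.symm haz), if_neg (Ne.symm haw)]
          omega
    obtain ⟨X, rfl⟩ := Multiset.le_iff_exists_add.1 hle
    refine ⟨X, ⟨?_, ?_⟩, rfl⟩
    · rw [card_add, card_zw] at h1
      omega
    · intro a ha
      rw [count_add, count_z_zw h.zne] at h2
      rw [count_add, count_w_zw h.zne] at h3
      rcases h.hall a with h' | h' | h'
      · exact h'
      · subst h'
        have := count_pos.2 ha
        omega
      · subst h'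
        have := count_pos.2 ha
        omega

theorem Setup.hpIface (h : Setup G T z w c u v) (m : ℕ) (b : Bool) :
    HP (Swap G) (MS T (m + 2)) (iface c u b (m + 1)) (iface c u (!b) (m + 1)) := by
  have hD := typeD h.hcl h.hc h.hu h.hv h.hcu h.hcv h.huv (m + 1)
  cases b
  · exact hD
  · exact HP.reverse (fun _ _ hab => hab.symm) hD

/-- the part of the line `j` beginning with the fibre `i` -/
def Ln (z w : V) (k i j : ℕ) : Set (Multiset V) :=
  {A | card A = k ∧ count w A = j ∧ i ≤ count z A ∧ count z A + j < k}

theorem Setup.line (h : Setup G T z w c u v) {t : V} (ht : t ∈ T) (m : ℕ) :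
    ∀ (i j k : ℕ) (b : Bool), i + j + (m + 1) = k → fin c u m b ≠ t →
      HP (Swap G) (Ln z w k i j) (zw z w i j + iface c u b m) (zw z w (i + m) j + {t}) := by
  induction m with
  | zero =>
    intro i j k b hk hb
    have h1 := HP.map (R' := Swap G) (fun X => zw z w i j + X)
      (fun a b hab => by simpa using hab) (fun a b hab => hab.add _)
      (typeA' (x := fin c u 0 b) h.hcl (by unfold fin; split_ifs; exacts [h.hu, h.hc]) ht hb 1)
    rw [h.fib, ← iface_zero] at h1
    refine HP.congr (by simpa using h1) ?_
    ext A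
    simp only [Ln, Set.mem_ofPred_eq]
    constructor
    · rintro ⟨h1, h2, h3⟩
      omega
    · rintro ⟨h1, h2, h3, h4⟩
      omega
  | succ m ih =>
    intro i j k b hk hb
    have h1 := HP.map (R' := Swap G) (fun X => zw z w i j + X)
      (fun a b hab => by simpa using hab) (fun a b hab => hab.add _) (h.hpIface m b)
    rw [h.fib] at h1
    have h2 := ih (i + 1) j k (!b) (by omega) hb
    have h3 : i + 1 + m = i + (m + 1) := by omega
    rw [h3] at h2
    refine (h1.concat h2 ?_ ?_).congr ?_
    · rw [Set.disjoint_left]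
      rintro A ⟨_, hA, _⟩ ⟨_, _, hA', _⟩
      omega
    · refine ⟨c, z, h.hcz, zw z w i j + iface c u (!b) m, ?_, ?_⟩
      · rw [iface_succ, add_cons]
      · rw [zw_succ_left, cons_add]
    · ext A
      simp only [Ln, Set.mem_union, Set.mem_ofPred_eq]
      constructor
      · rintro (⟨h1, h2, h3⟩ | ⟨h1, h2, h3, h4⟩)
        · omega
        · omega
      · rintro ⟨h1, h2, h3, h4⟩
        by_cases h5 : count z A = i
        · left; omega
        · right; omega

/-- the union of the lines `j, j + 1, …, k - 1` -/
def Un (z w : V) (k j : ℕ) : Set (Multiset V) :=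
  {A | card A = k ∧ j ≤ count w A ∧ count z A + count w A < k}

theorem Un_eq (z w : V) (k j : ℕ) : Un z w k (j + 1) ∪ Ln z w k 0 j = Un z w k j := by
  ext A
  simp only [Un, Ln, Set.mem_union, Set.mem_ofPred_eq]
  constructor
  · rintro (⟨h1, h2, h3⟩ | ⟨h1, h2, h3, h4⟩)
    · omega
    · omega
  · rintro ⟨h1, h2, h3⟩
    by_cases h5 : count w A = j
    · right; omega
    · left; omega

theorem Un_disj (z w : V) (k j : ℕ) : Disjoint (Un z w k (j + 1)) (Ln z w k 0 j) := by
  rw [Set.disjoint_left]
  rintro A ⟨_, hA, _⟩ ⟨_, hA', _⟩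
  omega

theorem Un_top (z w : V) (j : ℕ) : Un z w (j + 1) j = Ln z w (j + 1) 0 j := by
  ext A
  simp only [Un, Ln, Set.mem_ofPred_eq]
  omega

/-- Hamiltonian path through the lines `≥ j` ending at the interface `b`. -/
def PP (G : SimpleGraph V) (z w c u : V) (K : ℕ) (b : Bool) : Prop :=
  ∀ j, HP (Swap G) (Un z w (j + K + 1) j) (zw z w 0 (j + K) + {c}) (zw z w 0 j + iface c u b K)

/-- Hamiltonian path through the lines `≥ j` ending at `z^K w^j v`. -/
def QQ (G : SimpleGraph V) (z w c v : V) (K : ℕ) : Prop :=
  ∀ j, HP (Swap G) (Un z w (j + K + 1) j) (zw z w 0 (j + K) + {c}) (zw z w K j + {v})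

theorem Setup.baseP (h : Setup G T z w c u v) : PP G z w c u 0 true := by
  intro j
  have h1 := h.line h.hu 0 0 j (j + 1) false (by omega) (by simpa [fin] using h.hcu)
  have e1 : iface c u false 0 = {c} := by simp [iface]
  have e2 : iface c u true 0 = {u} := by simp [iface]
  rw [e1] at h1
  rw [e2]
  simp only [add_zero]
  rw [Un_top]
  simpa using h1

theorem Setup.baseQ (h : Setup G T z w c u v) : QQ G z w c v 0 := by
  intro j
  have h1 := h.line h.hv 0 0 j (j + 1) false (by omega) (fin_ne_v h.hcv h.huv _ _)
  have e1 : iface c u false 0 = {c} := by simp [iface]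
  rw [e1] at h1
  simp only [add_zero]
  rw [Un_top]
  simpa using h1

theorem Setup.stepP (h : Setup G T z w c u v) {K : ℕ} {b : Bool} (hP : PP G z w c u K b)
    {t : V} (ht : t ∈ T) (hb : fin c u (K + 1) b ≠ t) :
    ∀ j, HP (Swap G) (Un z w (j + (K + 1) + 1) j) (zw z w 0 (j + (K + 1)) + {c})
      (zw z w (K + 1) j + {t}) := by
  intro j
  have h1 := hP (j + 1)
  have e1 : j + 1 + K + 1 = j + (K + 1) + 1 := by omega
  have e2 : j + 1 + K = j + (K + 1) := by omega
  rw [e1, e2] at h1
  have h2 := h.line ht (K + 1) 0 j (j + (K + 1) + 1) b (by omega) hb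
  rw [zero_add] at h2
  refine (h1.concat h2 (Un_disj _ _ _ _) ?_).congr (Un_eq _ _ _ _)
  refine ⟨w, c, h.hcw.symm, zw z w 0 j + iface c u b K, ?_, ?_⟩
  · rw [zw_succ_right, cons_add]
  · rw [iface_succ, add_cons]

theorem Setup.stepQ (h : Setup G T z w c u v) {K : ℕ} (hQ : QQ G z w c v K) (b : Bool) :
    PP G z w c u (K + 1) b := by
  intro j
  have h1 := hQ (j + 1)
  have e1 : j + 1 + K + 1 = j + (K + 1) + 1 := by omega
  have e2 : j + 1 + K = j + (K + 1) := by omega
  rw [e1, e2] at h1
  have h2 := HP.reverse (fun _ _ hab => Swap.symm hab)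
    (h.line h.hv (K + 1) 0 j (j + (K + 1) + 1) b (by omega) (fin_ne_v h.hcv h.huv _ _))
  rw [zero_add] at h2
  refine (h1.concat h2 (Un_disj _ _ _ _) ?_).congr (Un_eq _ _ _ _)
  refine ⟨w, z, h.hzw.symm, zw z w K j + {v}, ?_, ?_⟩
  · rw [zw_succ_right, cons_add]
  · rw [zw_succ_left, cons_add]

theorem Setup.evenP (h : Setup G T z w c u v) (n : ℕ) : PP G z w c u (2 * n) true := by
  induction n with
  | zero => exact h.baseP
  | succ n ih =>
    have : 2 * (n + 1) = 2 * n + 1 + 1 := by ring
    rw [this]
    exact h.stepQ (h.stepP ih h.hv (fin_ne_v h.hcv h.huv _ _)) true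

theorem Setup.evenQ (h : Setup G T z w c u v) (n : ℕ) : QQ G z w c v (2 * n) := by
  induction n with
  | zero => exact h.baseQ
  | succ n ih =>
    have : 2 * (n + 1) = 2 * n + 1 + 1 := by ring
    rw [this]
    exact h.stepP (h.stepQ ih true) h.hv (fin_ne_v h.hcv h.huv _ _)

theorem Setup.final (h : Setup G T z w c u v) (k : ℕ) (hk : 3 ≤ k) :
    ∃ K, K + 1 = k ∧ HP (Swap G) (Un z w k 0) (zw z w 0 K + {c}) (zw z w K 0 + {c}) := by
  rcases Nat.even_or_odd' k with ⟨n, rfl | rfl⟩
  · -- `k = 2 n = 2 (n - 2) + 4`
    obtain ⟨p, rfl⟩ : ∃ p, n = p + 2 := ⟨n - 2, by omega⟩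
    have h1 : PP G z w c u (2 * p + 1 + 1) false :=
      h.stepQ (h.stepP (h.evenP p) h.hv (fin_ne_v h.hcv h.huv _ _)) false
    have h2 := h.stepP h1 h.hc (by
      have : fin c u (2 * p + 1 + 1 + 1) false = fin c u (2 * (p + 1)) true := rfl
      rw [this, fin_two]
      simpa using h.hcu.symm) 0
    refine ⟨2 * p + 1 + 1 + 1, by omega, ?_⟩
    have e1 : 0 + (2 * p + 1 + 1 + 1) + 1 = 2 * (p + 2) := by omega
    rw [e1] at h2
    simpa using h2
  · -- `k = 2 n + 1 = 2 (n - 1) + 3`
    obtain ⟨p, rfl⟩ : ∃ p, n = p + 1 := ⟨n - 1, by omega⟩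
    have h1 : PP G z w c u (2 * p + 1) true := h.stepQ (h.evenQ p) true
    have h2 := h.stepP h1 h.hc (by
      have : fin c u (2 * p + 1 + 1) true = fin c u (2 * (p + 1)) true := rfl
      rw [this, fin_two]
      simpa using h.hcu.symm) 0
    refine ⟨2 * p + 1 + 1, by omega, ?_⟩
    have e1 : 0 + (2 * p + 1 + 1) + 1 = 2 * (p + 1) + 1 := by omega
    rw [e1] at h2
    simpa using h2

theorem Setup.cycle (h : Setup G T z w c u v) (k : ℕ) (hk : 3 ≤ k) :
    ∃ s t : Multiset V, HP (Swap G) {A | card A = k} s t ∧ Swap G t s := by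
  obtain ⟨K, rfl, h1⟩ := h.final k hk
  have hclz : ∀ a ∈ ({z, w} : Finset V), ∀ b ∈ ({z, w} : Finset V), a ≠ b → G.Adj a b := by
    intro a ha b hb hab
    simp only [Finset.mem_insert, Finset.mem_singleton] at ha hb
    rcases ha with rfl | rfl <;> rcases hb with rfl | rfl
    · exact absurd rfl hab
    · exact h.hzw
    · exact h.hzw.symm
    · exact absurd rfl hab
  have h0 := typeA' hclz (x := z) (y := w) (by simp) (by simp) h.zne (K + 1)
  refine ⟨replicate (K + 1) z, zw z w K 0 + {c}, (h0.concat h1 ?_ ?_).congr ?_, ?_⟩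
  · rw [Set.disjoint_left]
    rintro A ⟨hA, hA'⟩ ⟨_, _, hA2⟩
    have hc' : count z A + count w A = card A := by
      have hA3 : A = filter (fun x => x = z) A + filter (fun x => x = w) A := by
        have h5 := filter_add_not (fun x => x = z) A
        conv_lhs => rw [← h5]
        congr 1
        apply filter_congr
        intro x hx
        have := hA' x hx
        simp only [Finset.mem_insert, Finset.mem_singleton] at this
        rcases this with rfl | rfl
        · simp [h.zne]
        · simp [h.zne.symm]
      conv_rhs => rw [hA3]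
      rw [card_add, filter_eq', filter_eq', card_replicate, card_replicate]
    omega
  · refine ⟨w, c, h.hcw.symm, replicate K w, replicate_succ _ _, ?_⟩
    unfold zw
    rw [replicate_zero, zero_add, add_comm, singleton_add]
  · ext A
    simp only [Set.mem_union, mem_MS, Un, Set.mem_ofPred_eq]
    constructor
    · rintro (⟨h1, _⟩ | ⟨h1, _⟩) <;> exact h1
    · intro hA
      by_cases h6 : ∀ a ∈ A, a ∈ ({z, w} : Finset V)
      · exact Or.inl ⟨hA, h6⟩
      · right
        refine ⟨hA, Nat.zero_le _, ?_⟩
        push Not at h6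
        obtain ⟨a, ha, ha'⟩ := h6
        simp only [Finset.mem_insert, Finset.mem_singleton, not_or] at ha'
        obtain ⟨X, rfl⟩ := exists_cons_of_mem ha
        rw [count_cons_of_ne (Ne.symm ha'.1), count_cons_of_ne (Ne.symm ha'.2)]
        rw [card_cons] at hA
        have h7 : count z X + count w X ≤ card X := by
          have h8 : filter (fun x => x = w) X ≤ filter (fun x => ¬ x = z) X := by
            apply monotone_filter_right
            intro x hx
            rintro rfl
            exact h.zne hx
          have h9 := card_le_card h8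
          have h10 := congrArg card (filter_add_not (fun x => x = z) X)
          rw [card_add, filter_eq', card_replicate] at h10
          rw [filter_eq', card_replicate] at h9
          omega
        omega
  · refine ⟨c, z, h.hcz, replicate K z, ?_, replicate_succ _ _⟩
    unfold zw
    rw [replicate_zero, add_zero, add_comm, singleton_add]

end Lines

/-! ### From lists to Hamiltonian cycles -/

theorem isHamiltonian_of_HP {V : Type*} [Fintype V] [DecidableEq V] {G : SimpleGraph V}
    {s t : V} (h : HP G.Adj Set.univ s t) (hts : G.Adj t s) (hcard : 3 ≤ Fintype.card V) :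
    G.IsHamiltonian := by
  obtain ⟨l, h1, h2, h3, h4, h5⟩ := h
  intro _
  have hlen : l.length = Fintype.card V := by
    have : l.toFinset = Finset.univ := by
      ext x
      simp only [List.mem_toFinset, Finset.mem_univ, iff_true]
      exact (h2 x).2 trivial
    rw [← Finset.card_univ, ← this, List.toFinset_card_of_nodup h1]
  have hchain : (t :: l).IsChain G.Adj := by
    rw [List.isChain_cons]
    refine ⟨?_, h3⟩
    intro y hy
    rw [h4] at hy
    simp only [Option.mem_def, Option.some.injEq] at hy
    subst hy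
    exact hts
  have hne : (t :: l) ≠ [] := List.cons_ne_nil _ _
  have hlast : (t :: l).getLast hne = t := by
    have : (t :: l).getLast? = some t := by
      rw [List.getLast?_cons, h5]; rfl
    rw [List.getLast?_eq_getLast_of_ne_nil hne] at this
    simpa using this
  obtain ⟨p, hsupp⟩ : ∃ p : G.Walk t t, p.support = t :: l := by
    have hhead : (t :: l).head hne = t := rfl
    have key : ∀ (a b : V) (q : G.Walk a b), a = t → b = t → q.support = t :: l →
        ∃ p : G.Walk t t, p.support = t :: l := by
      intro a b q ha hb hq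
      subst ha
      subst hb
      exact ⟨q, hq⟩
    exact key _ _ (SimpleGraph.Walk.ofSupport (t :: l) hne hchain) hhead hlast
      (SimpleGraph.Walk.support_ofSupport hne hchain)
  refine ⟨t, p, ?_⟩
  have hplen : p.length = Fintype.card V := by
    have := p.length_support
    rw [hsupp, List.length_cons, hlen] at this
    omega
  have hnil : ¬ p.Nil := by
    intro hn
    have := SimpleGraph.Walk.length_eq_zero_iff.2 hn
    omega
  rw [SimpleGraph.Walk.isHamiltonianCycle_iff_isCycle_and_length_eq]
  refine ⟨?_, hplen⟩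
  rw [SimpleGraph.Walk.isCycle_iff_isPath_tail_and_le_length]
  refine ⟨?_, by omega⟩
  rw [SimpleGraph.Walk.isPath_def, SimpleGraph.Walk.support_tail_of_not_nil _ hnil, hsupp]
  exact h1

/-! ### The graph -/

/-- The graph on `n` vertices consisting of a complete graph on `{0, 3, 4, …, n - 1}` and a
triangle on `{0, 1, 2}`; they share exactly the vertex `0`. -/
def base (n : ℕ) : SimpleGraph (Fin n) where
  Adj x y := x ≠ y ∧ (x.val = 0 ∨ y.val = 0 ∨ (x.val ≤ 2 ↔ y.val ≤ 2))
  symm := ⟨fun x y h => ⟨h.1.symm, by tauto⟩⟩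
  loopless := ⟨fun _ h => h.1 rfl⟩

theorem base_not_hamiltonian (n : ℕ) (hn : 5 ≤ n) : ¬ (base n).IsHamiltonian := by
  intro hG
  have : Nontrivial (Fin n) := ⟨⟨0, by omega⟩, ⟨1, by omega⟩, by simp⟩
  obtain ⟨p, hp⟩ := hG.exists_isHamiltonianCycle ⟨0, by omega⟩
  have hne : ∀ i, 0 < i → i < p.length → (p.getVert i).val ≠ 0 := by
    intro i h0 hi h
    have := (hp.isCycle.getVert_endpoint_iff hi.le).1 (Fin.ext h)
    omega
  have hside : ∀ i, i + 1 < p.length →
      ((p.getVert (i + 1)).val ≤ 2 ↔ (p.getVert 1).val ≤ 2) := by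
    intro i
    induction i with
    | zero => intro _; rfl
    | succ i ih =>
      intro hi
      rw [← ih (by omega)]
      have hadj := p.adj_getVert_succ (i := i + 1) (by omega)
      have h1 := hne (i + 1) (by omega) (by omega)
      have h2 := hne (i + 1 + 1) (by omega) (by omega)
      rcases hadj with ⟨_, h | h | h⟩
      · exact absurd h h1
      · exact absurd h h2
      · exact h.symm
  have hfind : ∀ a : Fin n, a.val ≠ 0 → (a.val ≤ 2 ↔ (p.getVert 1).val ≤ 2) := by
    intro a ha
    obtain ⟨i, hi, hil⟩ := SimpleGraph.Walk.mem_support_iff_exists_getVert.1 (hp.mem_support a)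
    have hi0 : i ≠ 0 := by
      rintro rfl
      rw [SimpleGraph.Walk.getVert_zero] at hi
      rw [← hi] at ha
      exact ha rfl
    have hil' : i ≠ p.length := by
      rintro rfl
      rw [SimpleGraph.Walk.getVert_length] at hi
      rw [← hi] at ha
      exact ha rfl
    obtain ⟨j, rfl⟩ : ∃ j, i = j + 1 := ⟨i - 1, by omega⟩
    rw [← hi]
    exact hside j (by omega)
  have h1 := hfind ⟨1, by omega⟩ (by simp)
  have h3 := hfind ⟨3, by omega⟩ (by simp)
  simp only [Nat.one_le_ofNat, true_iff] at h1
  simp only at h3
  omega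

theorem base_setup (n : ℕ) (hn : 5 ≤ n) :
    Setup (base n) (Finset.univ.filter (fun x : Fin n => x.val ≠ 1 ∧ x.val ≠ 2))
      ⟨1, by omega⟩ ⟨2, by omega⟩ ⟨0, by omega⟩ ⟨3, by omega⟩ ⟨4, by omega⟩ where
  hcl := by
    intro a ha b hb hab
    simp only [Finset.mem_filter, Finset.mem_univ, true_and] at ha hb
    refine ⟨hab, ?_⟩
    omega
  hz := by simp
  hw := by simp
  hzw := by simp [base]
  hcz := by simp [base]
  hcw := by simp [base]
  hc := by simp
  hu := by simp
  hv := by simp
  hcu := by simp
  hcv := by simp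
  huv := by simp
  hall := by
    intro a
    simp only [Finset.mem_filter, Finset.mem_univ, true_and, Fin.ext_iff]
    omega

/-- **Theorem.** For every `k ≥ 3` and every `n ≥ k + 1` with `n ≥ 5` there is a graph `G` on `n`
vertices which is not Hamiltonian and whose `k`-multiset graph `M_k(G)` is Hamiltonian. In
particular such graphs exist for every `k ≥ 3`. -/
theorem result : ∀ k n : ℕ, 3 ≤ k → k + 1 ≤ n → 5 ≤ n →
    ∃ G : SimpleGraph (Fin n), ¬ G.IsHamiltonian ∧ (multisetGraph G k).IsHamiltonian := by
  intro k n hk _ hn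
  refine ⟨base n, base_not_hamiltonian n hn, ?_⟩
  obtain ⟨s, t, hST, hts⟩ := (base_setup n hn).cycle k hk
  obtain ⟨l, h1, h2, h3, h4, h5⟩ := hST
  have hcardA : ∀ A ∈ l, card A = k := fun A hA => (h2 A).1 hA
  have hs : s ∈ l := List.mem_of_mem_head? (by rw [h4]; rfl)
  have ht : t ∈ l := List.mem_of_mem_getLast? (by rw [h5]; rfl)
  let z : Fin n := ⟨0, by omega⟩
  let g : Multiset (Fin n) → Sym (Fin n) k := fun A =>
    if h : card A = k then Sym.mk A h else Sym.replicate k z
  have hg : ∀ A, card A = k → ((g A : Sym (Fin n) k) : Multiset (Fin n)) = A := by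
    intro A hA
    simp only [g]
    rw [dif_pos hA]
    rfl
  have hHP : HP (multisetGraph (base n) k).Adj Set.univ (g s) (g t) := by
    refine ⟨l.map g, ?_, ?_, ?_, ?_, ?_⟩
    · refine List.Nodup.map_on ?_ h1
      intro A hA B hB hAB
      rw [← hg A (hcardA A hA), ← hg B (hcardA B hB), hAB]
    · intro X
      simp only [List.mem_map, Set.mem_univ, iff_true]
      refine ⟨(X : Multiset (Fin n)), (h2 _).2 X.2, ?_⟩
      apply Sym.coe_injective
      exact hg _ X.2
    · rw [List.isChain_map]
      refine List.IsChain.imp_of_mem_imp ?_ h3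
      intro A B hA hB hAB
      show Swap (base n) (g A : Multiset (Fin n)) (g B : Multiset (Fin n))
      rw [hg A (hcardA A hA), hg B (hcardA B hB)]
      exact hAB
    · simp [h4]
    · simp [h5]
  refine isHamiltonian_of_HP hHP ?_ ?_
  · show Swap (base n) (g t : Multiset (Fin n)) (g s : Multiset (Fin n))
    rw [hg t (hcardA t ht), hg s (hcardA s hs)]
    exact hts
  · have hinj : Function.Injective (fun i : Fin n => Sym.replicate k i) :=
      Sym.replicate_right_injective (by omega)
    have := Fintype.card_le_of_injective _ hinj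
    rw [Fintype.card_fin] at this
    omega

end Pool.Agent.Results.MP_593b6a_co.NonHamiltonianBaseAllK
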